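import Pool.Agent.Helper94.YF.St

/-!
# Project YF (MP_2b6189_al), module BDA: from the centre to the combinatorial data
-/

set_option autoImplicit false

namespace Pool.Agent.Helper16.YF

open Matrix ComplexConjugate
open Pool.Agent.Helper94.YF

section grp

variable {L : ℕ}

private theorem lo_lo (b : ZMod L) (h2 : b + b = 0) : Lo b * Lo b = (1 : SL L) := by
  apply Subtype.ext
  ext i j
  fin_cases i <;> fin_cases j <;>
    simp [Lo, Matrix.mul_apply, Fin.sum_univ_two, h2]

private theorem lo_u_lo (b : ZMod L) (hb : b * b = b) (h2 : b + b = 0) :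
    Lo b * U b * Lo b = (U b * Lo b * U b : SL L) := by
  apply Subtype.ext
  ext i j
  fin_cases i <;> fin_cases j <;>
    simp [Lo, U, Matrix.mul_apply, Fin.sum_univ_two]
  · linear_combination h2 + (b + 1) * hb
  · linear_combination h2 + (b + 1) * hb

private theorem lo_s (b : ZMod L) : Lo b * Sm = (Sm * U (-b) : SL L) := by
  apply Subtype.ext
  ext i j
  fin_cases i <;> fin_cases j <;>
    simp [Lo, U, Sm, Matrix.mul_apply, Fin.sum_univ_two]

private theorem lo_zero : Lo (0 : ZMod L) = (1 : SL L) := by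
  apply Subtype.ext
  ext i j
  fin_cases i <;> fin_cases j <;> simp [Lo]

end grp

section main

variable {I : Type} [Fintype I] [DecidableEq I]

private theorem tw_st (Z : CentreRep I) (hth : ∀ i, Z.th (Z.st i) = Z.th i) (z : ZMod Z.L) (i : I) :
    Z.tw z (Z.st i) = Z.tw z i := by
  simp only [CentreRep.tw, hth]

/-- A rational square `(a / (2 d))^2`, integral over the integers, has an integral root. -/
private theorem dvd_of_int (hRAT : StRAT) (a : ℤ) (c : ℤ) (hc : c ≠ 0)
    (h : IsIntegral ℤ (((a : ℂ) ^ 2) / (c : ℂ) ^ 2)) : c ∣ a := by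
  have h1 : IsIntegral ℤ (((a : ℚ) ^ 2 / (c : ℚ) ^ 2 : ℚ) : ℂ) := by
    push_cast
    exact h
  obtain ⟨z, hz⟩ := hRAT.2 _ h1
  have hc' : (c : ℚ) ≠ 0 := by exact_mod_cast hc
  have h2 : (a : ℚ) ^ 2 = z * (c : ℚ) ^ 2 := by
    rw [hz]
    field_simp
  have h3 : a ^ 2 = z * c ^ 2 := by exact_mod_cast h2
  have h4 : c ^ 2 ∣ a ^ 2 := ⟨z, by rw [h3]; ring⟩
  exact (Int.pow_dvd_pow_iff (by norm_num)).1 h4

private theorem conj_two : (starRingEnd ℂ) (2 : ℂ) = 2 := map_ofNat (starRingEnd ℂ) 2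

theorem hBDA : StBDA := by
  intro hFUS hDUA hNRM hRAT I _ _ Z m b y hI hn hm hY
  haveI : NeZero Z.L := ⟨Z.L_pos.ne'⟩
  obtain ⟨fU, fL, fadd, fzero, fone, fo, fnorm, fN, fsymm, fd, fcol⟩ := hFUS hDUA I Z
  obtain ⟨dst, dsto, dd, dth, dkap, drho⟩ := hDUA I Z
  obtain ⟨hbb, h2b, -, L', hL, hL'odd, hL'⟩ := hI
  have h2 : b + b = 0 := by
    have : ((2 : ℕ) : ZMod Z.L) * b = b + b := by push_cast; ring
    rw [← this]; exact h2b
  have hn0 : (Z.n : ℂ) ≠ 0 := by exact_mod_cast Z.n_pos.ne'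
  -- the signs
  have htw : ∀ i, Z.tw b i = 1 ∨ Z.tw b i = -1 := by
    intro i
    have h1 : Z.tw b i * Z.tw b i = 1 := by rw [← fadd, h2, fzero]
    exact mul_self_eq_one_iff.1 h1
  classical
  let e : I → ℤ := fun i => if Z.tw b i = 1 then 1 else -1
  have he : ∀ i, Z.tw b i = (e i : ℂ) := by
    intro i
    by_cases h : Z.tw b i = 1
    · simp [e, h]
    · have h' := (htw i).resolve_left h
      have : e i = -1 := by simp [e, h]
      rw [this, h']; push_cast; ring
  have hepm : ∀ i, e i = 1 ∨ e i = -1 := by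
    intro i
    by_cases h : Z.tw b i = 1
    · left; simp [e, h]
    · right; simp [e, h]
  have hee : ∀ i, e i * e i = 1 := by
    intro i
    rcases hepm i with h | h <;> rw [h] <;> norm_num
  let B : I → I → ℤ := fun i j => ∑ l, (Z.N i (Z.st j) l : ℤ) * (e l * y l)
  have hB : ∀ i j, (B i j : ℂ) = 2 * Z.rho (Lo b) i j := by
    intro i j
    rw [fN b i j, Finset.mul_sum]
    simp only [B]
    push_cast
    refine Finset.sum_congr rfl fun l _ => ?_
    have h1 := hY.al l
    rw [he l] at h1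
    rw [← h1]; ring
  have hBr : ∀ i j, Z.rho (Lo b) i j = (B i j : ℂ) / 2 := by
    intro i j
    rw [hB]; ring
  have hsymm : ∀ i j, B i j = B j i := by
    intro i j
    have : (B i j : ℂ) = (B j i : ℂ) := by rw [hB, hB, fsymm]
    exact_mod_cast this
  have hBst : ∀ i j, B (Z.st i) (Z.st j) = B i j := by
    intro i j
    have : (B (Z.st i) (Z.st j) : ℂ) = (B i j : ℂ) := by rw [hB, hB, drho]
    exact_mod_cast this
  have hsq : ∀ i j, ∑ k, B i k * B k j = if i = j then 4 else 0 := by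
    intro i j
    have h1 : Z.rho (Lo b) * Z.rho (Lo b) = 1 := by
      rw [← map_mul, lo_lo b h2, map_one]
    have h3 := congrFun (congrFun h1 i) j
    rw [Matrix.mul_apply] at h3
    have h4 : ((∑ k, B i k * B k j : ℤ) : ℂ) = ((if i = j then 4 else 0 : ℤ) : ℂ) := by
      push_cast
      have h5 : ∑ k, (B i k : ℂ) * (B k j : ℂ) =
          4 * ∑ k, Z.rho (Lo b) i k * Z.rho (Lo b) k j := by
        rw [Finset.mul_sum]
        refine Finset.sum_congr rfl fun k _ => ?_
        rw [hB, hB]; ring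
      rw [h5, h3, Matrix.one_apply]
      split_ifs <;> norm_num
    exact_mod_cast h4
  have hbra : ∀ i j, ∑ k, e k * (B i k * B k j) = 2 * (e i * e j * B i j) := by
    intro i j
    have h1 : Z.rho (Lo b) * Z.rho (U b) * Z.rho (Lo b) =
        Z.rho (U b) * Z.rho (Lo b) * Z.rho (U b) := by
      rw [← map_mul, ← map_mul, ← map_mul, ← map_mul, lo_u_lo b hbb h2]
    rw [fU b] at h1
    have h3 := congrFun (congrFun h1 i) j
    rw [Matrix.mul_apply] at h3
    simp only [Matrix.mul_diagonal, Matrix.diagonal_mul] at h3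
    have h4 : ((∑ k, e k * (B i k * B k j) : ℤ) : ℂ) = ((2 * (e i * e j * B i j) : ℤ) : ℂ) := by
      push_cast
      have h5 : ∑ k, (e k : ℂ) * ((B i k : ℂ) * (B k j : ℂ)) =
          4 * ∑ k, Z.rho (Lo b) i k * Z.tw b k * Z.rho (Lo b) k j := by
        rw [Finset.mul_sum]
        refine Finset.sum_congr rfl fun k _ => ?_
        rw [hB, hB, he]; ring
      rw [h5, h3, hB, he, he]; ring
    exact_mod_cast h4
  have hBd : ∀ j, ∑ k, B j k * (Z.d k : ℤ) = 2 * Z.d j := by
    intro j
    have h1 := fd b j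
    have h3 : ((∑ k, B j k * (Z.d k : ℤ) : ℤ) : ℂ) = ((2 * (Z.d j : ℤ) : ℤ) : ℂ) := by
      push_cast
      rw [← h1, Finset.mul_sum]
      refine Finset.sum_congr rfl fun k _ => ?_
      rw [hB]; ring
    exact_mod_cast h3
  -- the numbers `G j`
  let G : I → ℤ := fun j => ∑ k, e k * B j k * (Z.d k : ℤ)
  have hGdvd : ∀ j, (2 * (Z.d j : ℤ)) ∣ G j := by
    intro j
    have h1 := hNRM I Z (U b * Lo b * U b * Sm) j Z.o
    have h3 : Z.rho (U b * Lo b * U b * Sm) j Z.o = (e j : ℂ) * (G j : ℂ) / (2 * Z.n) := by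
      rw [map_mul, map_mul, map_mul, fU b, Matrix.mul_apply]
      simp only [Matrix.mul_diagonal, Matrix.diagonal_mul]
      simp only [G]
      push_cast
      rw [Finset.mul_sum, Finset.sum_div]
      refine Finset.sum_congr rfl fun k _ => ?_
      rw [Z.s_symm k Z.o, Z.s_o, he, he, hBr]
      field_simp
    have h4 : (Z.n : ℂ) ^ 2 * (Z.rho (U b * Lo b * U b * Sm) j Z.o *
        conj (Z.rho (U b * Lo b * U b * Sm) j Z.o)) / (Z.d j : ℂ) ^ 2 =
        ((G j : ℂ) ^ 2) / (((2 * (Z.d j : ℤ) : ℤ) : ℂ)) ^ 2 := by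
      have h5 : conj (Z.rho (U b * Lo b * U b * Sm) j Z.o) =
          Z.rho (U b * Lo b * U b * Sm) j Z.o := by
        rw [h3]
        simp [conj_two]
      rw [h5, h3]
      have h6 : (e j : ℂ) * (e j : ℂ) = 1 := by exact_mod_cast hee j
      have h7 : (Z.d j : ℂ) ≠ 0 := by exact_mod_cast (Z.d_pos j).ne'
      push_cast
      have h8 : (e j : ℂ) ^ 2 = 1 := by rw [sq]; exact h6
      field_simp
      rw [h8]; ring
    rw [h4] at h1
    refine dvd_of_int hRAT _ _ ?_ h1
    have := Z.d_pos j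
    positivity
  have hGm : ∀ j, e j = -1 → G j = 0 := by
    intro j hj
    have h1 : ∑ k, e k * B j k * (∑ l, B k l * (Z.d l : ℤ)) = 2 * (e j * G j) := by
      have h3 : ∑ k, e k * B j k * (∑ l, B k l * (Z.d l : ℤ)) =
          ∑ l, (∑ k, e k * (B j k * B k l)) * (Z.d l : ℤ) := by
        simp only [Finset.mul_sum, Finset.sum_mul]
        rw [Finset.sum_comm]
        refine Finset.sum_congr rfl fun l _ => Finset.sum_congr rfl fun k _ => ?_
        ring
      rw [h3]
      simp only [hbra, G, Finset.mul_sum]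
      refine Finset.sum_congr rfl fun l _ => ?_
      ring
    have h3 : ∑ k, e k * B j k * (∑ l, B k l * (Z.d l : ℤ)) = 2 * G j := by
      simp only [hBd, G, Finset.mul_sum]
      refine Finset.sum_congr rfl fun l _ => ?_
      ring
    rw [hj] at h1
    linarith
  have hplus : ∀ j, 2 * (∑ k, if e k = 1 then B j k * (Z.d k : ℤ) else 0) =
      2 * Z.d j + G j := by
    intro j
    rw [← hBd j, Finset.mul_sum, ← Finset.sum_add_distrib]
    refine Finset.sum_congr rfl fun k _ => ?_
    rcases hepm k with h | h <;> simp [h] <;> ring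
  have hBo : ∀ k, B Z.o k = e k * y k := by
    intro k
    have h1 : (B Z.o k : ℂ) = ((e k * y k : ℤ) : ℂ) := by
      rw [hsymm, hB, hY.al, he]; push_cast; ring
    exact_mod_cast h1
  have hke : ∀ i, Z.kap i ≠ 0 → e i = 1 := by
    intro i hi
    have h1 := (hY.kapth i hi).2
    simp [e, h1]
  refine ⟨{ o := Z.o, st := Z.st, d := Z.d, kap := Z.kap, e := e, B := B,
            st_st := dst, st_o := dsto, e_pm := hepm, e_o := ?_, e_st := ?_,
            d_pos := Z.d_pos, d_o := Z.d_o, kap_o := Z.kap_o, kap_st := dkap,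
            kap_e := hke, symm := hsymm, B_st := hBst, sq := hsq, bra := hbra,
            odd := ?_, divp := ?_, divm := ?_, kapB := ?_, ne := ?_ }, rfl, rfl, rfl, he, hB⟩
  · simp [e, fo b]
  · intro i
    simp only [e, tw_st Z dth]
  · intro i j hij
    have h1 := hNRM I Z (Lo b) j i
    have h3 : (B j i) ^ 2 = 1 := by
      rw [← hsymm]
      rcases hij with h | h <;> rw [h] <;> norm_num
    have h4 : (Z.n : ℂ) ^ 2 * (Z.rho (Lo b) j i * conj (Z.rho (Lo b) j i)) / (Z.d j : ℂ) ^ 2 =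
        (((m : ℤ) : ℂ) ^ 2) / (((Z.d j : ℤ) : ℂ)) ^ 2 := by
      have h5 : conj (Z.rho (Lo b) j i) = Z.rho (Lo b) j i := by
        rw [hBr]; simp [conj_two]
      rw [h5, hBr, hn]
      have h6 : (B j i : ℂ) ^ 2 = 1 := by exact_mod_cast h3
      push_cast
      have h7 : (2 * (m : ℂ)) ^ 2 * ((B j i : ℂ) / 2 * ((B j i : ℂ) / 2)) =
          (m : ℂ) ^ 2 * (B j i : ℂ) ^ 2 := by ring
      rw [h7, h6]; ring
    rw [h4] at h1
    have h5 : (Z.d j : ℤ) ∣ (m : ℤ) := dvd_of_int hRAT _ _ (by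
      have := Z.d_pos j
      positivity) h1
    have h6 : Z.d j ∣ m := by exact_mod_cast h5
    exact Odd.of_dvd_nat hm h6
  · intro j _
    obtain ⟨c, hc⟩ := hGdvd j
    refine ⟨1 + c, ?_⟩
    have h1 := hplus j
    rw [hc] at h1
    linarith
  · intro j hj
    have h1 := hplus j
    rw [hGm j hj] at h1
    linarith
  · rw [← hY.kap]
    refine Finset.sum_congr rfl fun k _ => ?_
    rw [hBo]
    by_cases h : Z.kap k = 0
    · simp [h]
    · rw [hke k h]; ring
  · by_contra hne
    push Not at hne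
    -- `α l o = δ`
    have ha : ∀ l, Z.rho (Lo b) l Z.o = if l = Z.o then 1 else 0 := by
      intro l
      rw [hBr, hsymm, hne l]
      split_ifs <;> norm_num
    have h1 : ∀ i j, (Z.N i (Z.st j) Z.o : ℂ) = if i = j then 1 else 0 := by
      intro i j
      have h3 := fN 0 i j
      rw [lo_zero, map_one, Matrix.one_apply] at h3
      simp only [Matrix.one_apply, mul_ite, mul_one, mul_zero, Finset.sum_ite_eq',
        Finset.mem_univ, if_true] at h3
      exact h3.symm
    have h3 : Z.rho (Lo b) = 1 := by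
      ext i j
      rw [fN b i j, Matrix.one_apply]
      simp only [ha, mul_ite, mul_one, mul_zero, Finset.sum_ite_eq', Finset.mem_univ, if_true]
      exact h1 i j
    have h4 : Z.rho Sm * Z.rho (U (-b)) = Z.rho Sm := by
      rw [← map_mul, ← lo_s, map_mul, h3, one_mul]
    have h5 : Z.rho (U (-b)) = 1 := by
      have h6 := Z.unitary Sm
      calc Z.rho (U (-b)) = ((Z.rho Sm)ᴴ * Z.rho Sm) * Z.rho (U (-b)) := by rw [h6, one_mul]
        _ = (Z.rho Sm)ᴴ * (Z.rho Sm * Z.rho (U (-b))) := by rw [Matrix.mul_assoc]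
        _ = 1 := by rw [h4, h6]
    rw [fU] at h5
    have h6 : ∀ i, Z.th i ^ (-b).val = 1 := by
      intro i
      have h7 := congrFun (congrFun h5 i) i
      rw [Matrix.diagonal_apply_eq, Matrix.one_apply_eq] at h7
      exact h7
    have h7 := Z.th_order _ h6
    have h8 : (-b).val = 0 := Nat.eq_zero_of_dvd_of_lt h7 (ZMod.val_lt _)
    have h9 : b = 0 := by
      have : -b = 0 := (ZMod.val_eq_zero _).1 h8
      exact neg_eq_zero.1 this
    rw [h9, sub_zero, mul_one] at hL'
    have h10 : Z.L ∣ L' := (ZMod.natCast_eq_zero_iff _ _).1 hL'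
    have h11 : 0 < L' := hL'odd.pos
    have h12 := Nat.le_of_dvd h11 h10
    omega

end main

end Pool.Agent.Helper16.YF
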